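import Pool.Agent.Lib.MP_d02974_an.Main

/-!
In the plane, on every nonempty bounded open set, there is a field `u ∈ BD_dev` for which
`|E_d u|` is concentrated on `S_u \ J_u`, although `|E_d u|` vanishes on all sets of finite
`H^1` measure and `u` is quasi-continuous at every point.
-/

namespace Pool.Agent.Results.MP_d02974_an.PlaneFails

open MeasureTheory Pool.Agent.Lib.MP_d02974_an

theorem result (Ω : Set (Sp 2)) (hΩ : IsOpen Ω) (hne : Ω.Nonempty)
    (hb : Bornology.IsBounded Ω) :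
    ∃ (u : Sp 2 → Sp 2) (D : VectorMeasure (Sp 2) (Mat 2)),
      IntegrableOn u Ω ∧ IsDevStrain Ω u D ∧
      0 < D.variation (approxDisc Ω u \ jumpSet Ω u) ∧
      D.variation (Ω \ (approxDisc Ω u \ jumpSet Ω u)) = 0 ∧
      (∀ A : Set (Sp 2), Measure.hausdorffMeasure 1 A < ⊤ → D.variation A = 0) ∧
      (∀ x ∈ Ω, QuasiContAt u x) :=
  Pool.Agent.Lib.MP_d02974_an.main Ω hΩ hne hb

end Pool.Agent.Results.MP_d02974_an.PlaneFails
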